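import Mathlib

namespace Pool.Agent.H.MP_4c66eb_an
open Finset Polynomial

def Ng (p : ℂ[X]) : Prop := ∀ z : ℂ, p.eval z = 0 → z.im = 0 ∧ z.re < 0

theorem Ng.ne {p : ℂ[X]} (h : Ng p) : p ≠ 0 := by
  rintro rfl
  have := (h 0 (by simp)).2
  simp at this

theorem ng_ind (P : ℂ[X] → Prop) (h0 : ∀ c : ℂ, c ≠ 0 → P (C c))
    (h1 : ∀ (q : ℂ[X]) (s : ℝ), 0 < s → Ng q → P q → P ((X + C (s : ℂ)) * q)) :
    ∀ q, Ng q → P q := by
  intro q
  induction hn : q.natDegree generalizing q with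
  | zero =>
    intro hq
    rw [eq_C_of_natDegree_eq_zero hn]
    refine h0 _ (fun h => hq.ne ?_)
    rw [eq_C_of_natDegree_eq_zero hn, h, map_zero]
  | succ n ih =>
    intro hq
    obtain ⟨z, hz⟩ := IsAlgClosed.exists_root q (by
      rw [degree_eq_natDegree hq.ne, hn]; exact_mod_cast Nat.succ_ne_zero n)
    obtain ⟨r, hr⟩ := dvd_iff_isRoot.mpr hz
    obtain ⟨z1, z2⟩ := hq z hz
    have e : X - C z = X + C ((-z.re : ℝ) : ℂ) := by
      rw [sub_eq_add_neg, ← C_neg]
      congr 2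
      apply Complex.ext <;> simp [z1]
    have r0 : r ≠ 0 := by rintro rfl; exact hq.ne (by simpa using hr)
    have nr : Ng r := fun w hw => hq w (by rw [hr, eval_mul, hw, mul_zero])
    have dr : r.natDegree = n := by
      rw [hr, natDegree_mul (X_sub_C_ne_zero z) r0, natDegree_X_sub_C] at hn
      omega
    rw [hr, e]
    exact h1 r _ (by linarith) nr (ih r dr nr)

theorem step (ω y : ℂ) (h2 : 0 < (ω * (starRingEnd ℂ) y).re) (s : ℝ) (hs : 0 < s) (p : ℂ[X])
    (hp : ∀ x : ℂ, 0 ≤ (x * (starRingEnd ℂ) ω).re → p.eval x ≠ 0) (x : ℂ)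
    (hx : 0 ≤ (x * (starRingEnd ℂ) ω).re) :
    (y • derivative p + (s : ℂ) • p).eval x ≠ 0 := by
  have px := hp x hx
  have p0 : p ≠ 0 := by rintro rfl; simp at px
  have e := (IsAlgClosed.splits p).eval_derivative_div_eval_of_ne_zero px
  have nn : 0 ≤ (ω * (p.roots.map fun z => 1 / (x - z)).sum).re := by
    rw [← Multiset.sum_map_mul_left]
    have := map_multiset_sum Complex.reAddGroupHom (p.roots.map fun z => ω * (1 / (x - z)))
    rw [Complex.coe_reAddGroupHom] at this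
    rw [this]
    refine Multiset.sum_nonneg (fun t ht => ?_)
    simp only [Multiset.map_map, Multiset.mem_map, Function.comp_apply] at ht
    obtain ⟨z, hz, rfl⟩ := ht
    have hz' : (z * (starRingEnd ℂ) ω).re < 0 := by
      by_contra hh
      exact hp z (not_lt.mp hh) ((mem_roots p0).mp hz)
    rw [mul_one_div, Complex.div_re, ← add_div]
    refine div_nonneg ?_ (Complex.normSq_nonneg _)
    simp only [Complex.mul_re, Complex.conj_re, Complex.conj_im, Complex.sub_re,
      Complex.sub_im] at hz' hx ⊢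
    linarith
  rw [← e] at nn
  intro h
  simp only [eval_add, eval_smul, smul_eq_mul] at h
  have y0 : y ≠ 0 := by rintro rfl; simp at h2
  have e2 : (derivative p).eval x / p.eval x = -(s : ℂ) / y := by
    rw [div_eq_div_iff px y0]; linear_combination h
  rw [e2, ← mul_div_assoc, Complex.div_re, ← add_div] at nn
  have pos : 0 < Complex.normSq y := Complex.normSq_pos.mpr y0
  rw [le_div_iff₀ pos] at nn
  simp only [Complex.mul_re, Complex.conj_re, Complex.conj_im, Complex.mul_im, Complex.neg_re,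
    Complex.neg_im, Complex.ofReal_re, Complex.ofReal_im] at nn h2
  nlinarith

def NS (n : ℕ) (a : ℕ → ℂ) : Prop :=
  a n ≠ 0 ∧ ∀ z : ℂ, ∑ k ∈ range (n + 1), a k * z ^ k = 0 → z.im = 0 ∧ z.re < 0

theorem NS.zero {n : ℕ} {a : ℕ → ℂ} (h : NS n a) : a 0 ≠ 0 := by
  intro h0
  have := (h.2 0 (by rw [Finset.sum_range_succ']; simp [h0])).2
  simp at this

noncomputable def pol (n : ℕ) (a : ℕ → ℂ) : ℂ[X] := ∑ k ∈ range (n + 1), C (a k) * X ^ k

theorem pol_eval (n : ℕ) (a : ℕ → ℂ) (z : ℂ) :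
    (pol n a).eval z = ∑ k ∈ range (n + 1), a k * z ^ k := by
  simp [pol, eval_finsetSum]

theorem pol_coeff (n : ℕ) (a : ℕ → ℂ) (k : ℕ) :
    (pol n a).coeff k = if k < n + 1 then a k else 0 := by
  simp [pol, finsetSum_coeff, coeff_X_pow]

theorem pol_deg (n : ℕ) (a : ℕ → ℂ) : (pol n a).natDegree < n + 1 := by
  rw [Nat.lt_succ_iff, natDegree_le_iff_coeff_eq_zero]
  intro k hk
  rw [pol_coeff, if_neg (by omega)]

theorem NS.schur {n : ℕ} {a b : ℕ → ℂ} (ha : NS n a) (hb : NS n b) :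
    NS n (fun k => (k.factorial : ℂ) * a k * b k) := by
  refine ⟨mul_ne_zero (mul_ne_zero (by exact_mod_cast n.factorial_ne_zero) ha.1) hb.1, ?_⟩
  intro y hy
  by_contra hn
  have y0 : y ≠ 0 := by
    rintro rfl
    rw [Finset.sum_range_succ'] at hy
    simp [ha.zero, hb.zero] at hy
  have ny : 0 < ‖y‖ := norm_pos_iff.mpr y0
  have h1 : 0 < y.re + ‖y‖ := by
    have a1 := Complex.abs_re_le_norm y
    by_contra hh
    have a2 : y.re = -‖y‖ := by linarith [neg_abs_le y.re, not_lt.mp hh]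
    have a3 : ‖y‖ ^ 2 = y.re * y.re + y.im * y.im := by
      rw [← Complex.normSq_apply, Complex.normSq_eq_norm_sq]
    exact hn ⟨by nlinarith, by linarith⟩
  obtain ⟨ω, hω⟩ : ∃ ω : ℂ, ω = y + (‖y‖ : ℝ) := ⟨_, rfl⟩
  have w1 : 0 < ω.re := by rw [hω]; simpa using h1
  have w2 : 0 < (ω * (starRingEnd ℂ) y).re := by
    have a3 : ‖y‖ ^ 2 = y.re * y.re + y.im * y.im := by
      rw [← Complex.normSq_apply, Complex.normSq_eq_norm_sq]
    rw [hω]
    simp only [Complex.mul_re, Complex.conj_re, Complex.conj_im, Complex.add_re, Complex.add_im,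
      Complex.ofReal_re, Complex.ofReal_im]
    nlinarith
  obtain ⟨T, hT⟩ : ∃ T : Module.End ℂ ℂ[X], T = y • (derivative : ℂ[X] →ₗ[ℂ] ℂ[X]) := ⟨_, rfl⟩
  have pa : ∀ x : ℂ, 0 ≤ (x * (starRingEnd ℂ) ω).re → (pol n a).eval x ≠ 0 := by
    intro x hx h
    rw [pol_eval] at h
    obtain ⟨x1, x2⟩ := ha.2 x h
    simp only [Complex.mul_re, Complex.conj_re, Complex.conj_im, x1] at hx
    nlinarith
  have key := ng_ind (fun q => ∀ x : ℂ, 0 ≤ (x * (starRingEnd ℂ) ω).re →
      ((aeval T q) (pol n a)).eval x ≠ 0)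
    (fun c hc x hx => by
      simp only [aeval_C, Module.algebraMap_end_apply, eval_smul, smul_eq_mul]
      exact mul_ne_zero hc (pa x hx))
    (fun q s hs _ ih x hx => by
      have := step ω y w2 s hs _ ih x hx
      rw [map_mul, map_add, aeval_X, aeval_C, Module.End.mul_apply, LinearMap.add_apply,
        Module.algebraMap_end_apply]
      nth_rewrite 1 [hT]
      exact this)
    (pol n b) (fun z hz => hb.2 z (by rwa [pol_eval] at hz)) 0 (by simp)
  apply key
  rw [aeval_eq_sum_range' (pol_deg n b), LinearMap.sum_apply, eval_finsetSum]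
  refine Eq.trans (Finset.sum_congr rfl (fun k hk => ?_)) hy
  rw [Finset.mem_range] at hk
  rw [hT, _root_.smul_pow, LinearMap.smul_apply, LinearMap.smul_apply, Module.End.pow_apply, eval_smul,
    eval_smul, ← coeff_zero_eq_eval_zero, coeff_iterate_derivative, zero_add, pol_coeff, pol_coeff,
    if_pos hk, if_pos hk, Nat.descFactorial_self]
  simp only [smul_eq_mul, nsmul_eq_mul]
  ring

theorem NS.rev {n : ℕ} {a : ℕ → ℂ} (ha : NS n a) : NS n (fun k => a (n - k)) := by
  refine ⟨by simpa using ha.zero, fun z hz => ?_⟩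
  have z0 : z ≠ 0 := by
    rintro rfl
    rw [Finset.sum_range_succ'] at hz
    simp [ha.1] at hz
  have e : ∑ k ∈ range (n + 1), a k * (z⁻¹) ^ k = 0 := by
    rw [← Finset.sum_range_reflect]
    refine mul_left_cancel₀ (pow_ne_zero n z0) ?_
    rw [mul_zero, Finset.mul_sum, ← hz]
    refine Finset.sum_congr rfl (fun k hk => ?_)
    rw [Finset.mem_range] at hk
    have : z ^ n = z ^ k * z ^ (n - k) := by rw [← pow_add]; congr 1; omega
    rw [Nat.add_sub_cancel, this, inv_pow]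
    field_simp
  obtain ⟨h1, h2⟩ := ha.2 _ e
  have pos : 0 < Complex.normSq z := Complex.normSq_pos.mpr z0
  rw [Complex.inv_im, div_eq_zero_iff, neg_eq_zero] at h1
  rw [Complex.inv_re, div_neg_iff] at h2
  exact ⟨h1.resolve_right pos.ne', by rcases h2 with h | h <;> linarith [h.1, h.2]⟩

theorem NS.bin (n : ℕ) : NS n (fun k => (n.choose k : ℂ)) := by
  refine ⟨by simp, fun z hz => ?_⟩
  have : (z + 1) ^ n = 0 := by
    rw [add_pow, ← hz]
    exact Finset.sum_congr rfl (fun k _ => by ring)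
  have := eq_neg_of_add_eq_zero_left (pow_eq_zero_iff (by rintro rfl; simp at this) |>.mp this)
  rw [this]; simp

theorem NS.congr {n : ℕ} {a b : ℕ → ℂ} (ha : NS n a) (c : ℂ)
    (h : ∀ k ≤ n, a k = c * b k) : NS n b := by
  refine ⟨fun h0 => ha.1 (by rw [h n le_rfl, h0, mul_zero]), fun z hz => ha.2 z ?_⟩
  rw [← mul_zero c, ← hz, Finset.mul_sum]
  exact Finset.sum_congr rfl (fun k hk => by
    rw [h k (Nat.lt_succ_iff.mp (Finset.mem_range.mp hk)), mul_assoc])

theorem NS.div {n : ℕ} {a : ℕ → ℂ} (ha : NS n a) : NS n (fun k => a k / k.factorial) := by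
  refine (ha.rev.schur (NS.bin n)).rev.congr (n.factorial : ℂ) (fun k hk => ?_)
  have e := Nat.choose_mul_factorial_mul_factorial hk
  have f : (k.factorial : ℂ) ≠ 0 := by exact_mod_cast k.factorial_ne_zero
  rw [Nat.sub_sub_self hk, Nat.choose_symm hk, ← e]
  push_cast
  field_simp

theorem NS.had {n : ℕ} {a : ℕ → ℂ} (ha : NS n a) :
    NS n (fun k => a k * a (n - k) * (n.choose k : ℂ)) := by
  refine ((ha.schur ha.rev).div.schur (NS.bin n)).div.congr 1 (fun k _ => ?_)
  have f : (k.factorial : ℂ) ≠ 0 := by exact_mod_cast k.factorial_ne_zero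
  field_simp

end Pool.Agent.H.MP_4c66eb_an
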