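import Mathlib
import Pool.Agent.H.MP_4c66eb_an.A

namespace Pool.Agent.H.MP_4c66eb_an
open Finset Polynomial

theorem interlace (d : ℕ) (l u : ℕ → ℝ) (s : ℝ) (hs : 0 < s) (h1 : ∀ i < d, l i < u i)
    (h2 : ∀ i j, i < j → j < d → u i < l j) :
    ∃ y : ℕ → ℝ, (∀ i < d, l i < y i ∧ y i < u i) ∧ ∀ z : ℂ,
      (s : ℂ) * ∏ i ∈ range d, (z - l i) + ∏ i ∈ range d, (z - u i) =
        ((s : ℂ) + 1) * ∏ i ∈ range d, (z - y i) := by
  obtain ⟨g, hg⟩ : ∃ g : ℝ → ℝ, ∀ x, g x = s * ∏ i ∈ range d, (x - l i) + ∏ i ∈ range d, (x - u i) :=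
    ⟨_, fun _ => rfl⟩
  have gc : Continuous g := by rw [funext hg]; fun_prop
  have ex : ∀ i < d, ∃ y, (l i < y ∧ y < u i) ∧ g y = 0 := by
    intro i hi
    have hm := Finset.mem_range.mpr hi
    have sg : g (l i) * g (u i) < 0 := by
      rw [hg, hg, Finset.prod_eq_zero (f := fun j => l i - l j) hm (sub_self _),
        Finset.prod_eq_zero (f := fun j => u i - u j) hm (sub_self _), mul_zero, zero_add,
        add_zero, mul_left_comm, ← Finset.prod_mul_distrib, ← Finset.mul_prod_erase _ _ hm]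
      refine mul_neg_of_pos_of_neg hs (mul_neg_of_neg_of_pos
        (mul_neg_of_neg_of_pos (sub_neg.mpr (h1 i hi)) (sub_pos.mpr (h1 i hi)))
        (Finset.prod_pos (fun j hj => ?_)))
      rw [Finset.mem_erase, Finset.mem_range] at hj
      rcases lt_or_gt_of_ne hj.1 with h | h
      · have := h2 j i h hi
        exact mul_pos (by linarith) (by linarith [h1 i hi, h1 j hj.2])
      · have := h2 i j h hj.2
        exact mul_pos_of_neg_of_neg (by linarith [h1 i hi, h1 j hj.2]) (by linarith)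
    rcases mul_neg_iff.mp sg with h | h
    · obtain ⟨y, hy, e⟩ := intermediate_value_Ioo' (h1 i hi).le gc.continuousOn ⟨h.2, h.1⟩
      exact ⟨y, hy, e⟩
    · obtain ⟨y, hy, e⟩ := intermediate_value_Ioo (h1 i hi).le gc.continuousOn ⟨h.1, h.2⟩
      exact ⟨y, hy, e⟩
  choose! y y1 y2 using ex
  refine ⟨y, y1, fun z => ?_⟩
  have dg : ∀ v : ℕ → ℝ, (∏ j ∈ range d, (X - C (v j : ℂ))).degree = (d : WithBot ℕ) := by
    intro v; simp [degree_prod, degree_X_sub_C]
  have mo : ∀ v : ℕ → ℝ, (∏ j ∈ range d, (X - C (v j : ℂ))).Monic :=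
    fun v => monic_prod_of_monic _ _ (fun j _ => monic_X_sub_C _)
  have df : ∀ v : ℕ → ℝ, ((∏ j ∈ range d, (X - C (v j : ℂ))) -
      ∏ j ∈ range d, (X - C (y j : ℂ))).degree < (d : WithBot ℕ) := by
    intro v
    have := degree_sub_lt_left ((dg v).trans (dg y).symm) (mo v).ne_zero
      (by rw [(mo v).leadingCoeff, (mo y).leadingCoeff])
    rwa [dg v] at this
  have key : C (s : ℂ) * ((∏ j ∈ range d, (X - C (l j : ℂ))) - ∏ j ∈ range d, (X - C (y j : ℂ))) +
      ((∏ j ∈ range d, (X - C (u j : ℂ))) - ∏ j ∈ range d, (X - C (y j : ℂ))) = 0 := by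
    refine Polynomial.eq_zero_of_degree_lt_of_eval_index_eq_zero (range d)
      (v := fun j => (y j : ℂ)) (fun i hi j hj e => ?_) ?_ (fun k hk => ?_)
    · have e' : y i = y j := Complex.ofReal_injective e
      have hi' : i < d := by simpa using hi
      have hj' : j < d := by simpa using hj
      by_contra hij
      rcases lt_or_gt_of_ne hij with h | h
      · linarith [h2 i j h hj', (y1 i hi').2, (y1 j hj').1]
      · linarith [h2 j i h hi', (y1 i hi').1, (y1 j hj').2]
    · rw [Finset.card_range]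
      refine (degree_add_le _ _).trans_lt (max_lt ?_ (df u))
      refine (degree_mul_le _ _).trans_lt ?_
      calc _ ≤ 0 + ((∏ j ∈ range d, (X - C (l j : ℂ))) -
            ∏ j ∈ range d, (X - C (y j : ℂ))).degree := add_le_add_left degree_C_le _
        _ < _ := by rw [zero_add]; exact df l
    · simp only [eval_add, eval_mul, eval_sub, eval_C, eval_prod, eval_X]
      rw [Finset.prod_eq_zero (f := fun j => (y k : ℂ) - y j) hk (sub_self _), sub_zero, sub_zero]
      have := y2 k (Finset.mem_range.mp hk)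
      rw [hg] at this
      exact_mod_cast this
  have k0 := congrArg (eval z) key
  simp only [eval_add, eval_mul, eval_sub, eval_C, eval_prod, eval_X, eval_zero] at k0
  linear_combination k0

noncomputable def rf (z : ℂ) (k : ℕ) : ℂ := ∏ i ∈ range k, (z + i)

theorem rf_zero (z : ℂ) : rf z 0 = 1 := by simp [rf]

theorem rf_succ (z : ℂ) (k : ℕ) : rf z (k + 1) = rf z k * (z + k) := Finset.prod_range_succ _ _

theorem rf_succ' (z : ℂ) (k : ℕ) : rf z (k + 1) = z * rf (z + 1) k := by
  unfold rf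
  rw [Finset.prod_range_succ', mul_comm]
  simp only [Nat.cast_zero, add_zero, Nat.cast_add, Nat.cast_one]
  congr 1
  exact Finset.prod_congr rfl (fun i _ => by ring)

theorem rf_add (z : ℂ) (k l : ℕ) : rf z (k + l) = rf z k * rf (z + k) l := by
  unfold rf
  rw [Finset.prod_range_add]
  congr 1
  exact Finset.prod_congr rfl (fun i _ => by push_cast; ring)

theorem rf_eval (z : ℂ) (k : ℕ) : (ascPochhammer ℂ k).eval z = rf z k := by
  induction k with
  | zero => simp [rf]
  | succ k ih => rw [ascPochhammer_succ_eval, ih, rf_succ]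

theorem rf_root (a : ℝ) (ha : 0 < a) (z : ℂ) (k : ℕ) (h : rf (z + a) k = 0) :
    z.im = 0 ∧ z.re < 0 := by
  obtain ⟨i, _, hi⟩ := Finset.prod_eq_zero_iff.mp h
  have h1 := congrArg Complex.re hi
  have h2 := congrArg Complex.im hi
  simp at h1 h2
  have : (0:ℝ) ≤ i := by positivity
  exact ⟨h2, by linarith⟩

noncomputable def R (a : ℝ) (d : ℕ) (c : ℂ[X]) (z : ℂ) : ℂ :=
  ∑ i ∈ range (d + 1), c.coeff i * (rf z i * rf (z + a + i) (d - i))

theorem R_pad (a : ℝ) (d : ℕ) (c : ℂ[X]) (z : ℂ) :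
    R a (d + 1) c z = (z + a + d) * R a d c z + c.coeff (d + 1) * rf z (d + 1) := by
  unfold R
  rw [Finset.sum_range_succ, Nat.sub_self, rf_zero, mul_one, Finset.mul_sum]
  congr 1
  refine Finset.sum_congr rfl (fun i hi => ?_)
  rw [Finset.mem_range] at hi
  rw [show d + 1 - i = d - i + 1 by omega, rf_succ, Nat.cast_sub (by omega)]
  ring

theorem R_X (a : ℝ) (d : ℕ) (c : ℂ[X]) (z : ℂ) :
    R a (d + 1) (X * c) z = z * R a d c (z + 1) := by
  unfold R
  rw [Finset.sum_range_succ', Finset.mul_sum]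
  simp only [coeff_X_mul, mul_coeff_zero, coeff_X_zero, zero_mul, add_zero]
  refine Finset.sum_congr rfl (fun i _ => ?_)
  rw [rf_succ', Nat.add_sub_add_right]
  push_cast
  rw [show z + a + (i + 1) = z + 1 + a + i by ring]
  ring

theorem R_lin (a : ℝ) (d : ℕ) (c : ℂ[X]) (s z : ℂ) :
    R a d ((X + C s) * c) z = R a d (X * c) z + s * R a d c z := by
  unfold R
  rw [Finset.mul_sum, ← Finset.sum_add_distrib]
  refine Finset.sum_congr rfl (fun i _ => ?_)
  rw [add_mul, coeff_add, coeff_C_mul]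
  ring

theorem R_fac (a : ℝ) (ha : 0 < a) (c : ℂ[X]) (hc : Ng c) :
    ∃ (K : ℂ) (x : ℕ → ℝ), K ≠ 0 ∧ (∀ i < c.natDegree, -(a + c.natDegree - 1) < x i ∧ x i < 0) ∧
      (∀ i j, i < j → j < c.natDegree → x i + 1 < x j) ∧
      ∀ z, R a c.natDegree c z = K * ∏ i ∈ range c.natDegree, (z - x i) := by
  refine ng_ind (fun c => ∃ (K : ℂ) (x : ℕ → ℝ), K ≠ 0 ∧
      (∀ i < c.natDegree, -(a + c.natDegree - 1) < x i ∧ x i < 0) ∧
      (∀ i j, i < j → j < c.natDegree → x i + 1 < x j) ∧
      ∀ z, R a c.natDegree c z = K * ∏ i ∈ range c.natDegree, (z - x i)) ?_ ?_ c hc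
  · intro c hc
    refine ⟨c, fun _ => 0, hc, ?_, ?_, ?_⟩ <;> simp [R, rf]
  · rintro q s hs hq ⟨K, x, K0, x1, x2, e⟩
    have dq : ((X + C (s : ℂ)) * q).natDegree = q.natDegree + 1 := by
      rw [natDegree_mul (X_add_C_ne_zero _) hq.ne, natDegree_X_add_C, add_comm]
    rw [dq]
    obtain ⟨d, hd⟩ : ∃ d, d = q.natDegree := ⟨_, rfl⟩
    have c0 : q.coeff (d + 1) = 0 := coeff_eq_zero_of_natDegree_lt (by omega)
    rw [← hd] at x1 x2 e ⊢
    have d0 : (0:ℝ) ≤ d := by positivity
    obtain ⟨y, y1, y2⟩ := interlace (d + 1) (fun i => if i = 0 then -(a + d) else x (i - 1))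
      (fun i => if i < d then x i - 1 else 0) s hs
      (fun i hi => by
        split_ifs with h1 h2 h2
        · linarith [(x1 i h2).1]
        · linarith
        · linarith [x2 (i - 1) i (by omega) h2]
        · exact (x1 (i - 1) (by omega)).2)
      (fun i j hij hj => by
        rw [if_pos (by omega), if_neg (by omega)]
        rcases (by omega : i = j - 1 ∨ i < j - 1) with h | h
        · rw [← h]; linarith
        · linarith [x2 i (j - 1) h (by omega)])
    refine ⟨K * ((s : ℂ) + 1), y, mul_ne_zero K0 (by exact_mod_cast (by linarith : s + 1 ≠ 0)),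
      fun i hi => ?_, fun i j hij hj => ?_, fun z => ?_⟩
    · obtain ⟨a1, a2⟩ := y1 i hi
      push_cast
      constructor
      · split_ifs at a1 with h
        · linarith
        · linarith [(x1 (i - 1) (by omega)).1]
      · split_ifs at a2 with h
        · linarith [(x1 i h).2]
        · exact a2
    · have a2 := (y1 i (by omega)).2
      have a1 := (y1 j hj).1
      rw [if_pos (by omega)] at a2
      rw [if_neg (by omega)] at a1
      rcases (by omega : i = j - 1 ∨ i < j - 1) with h | h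
      · rw [← h] at a1; linarith
      · linarith [x2 i (j - 1) h (by omega)]
    · rw [R_lin, R_X, R_pad, c0, e, e, mul_assoc K, ← y2 z, Finset.prod_range_succ',
        Finset.prod_range_succ]
      have p1 : ∏ i ∈ range d, (z - (((if i < d then x i - 1 else 0 : ℝ)) : ℂ)) =
          ∏ i ∈ range d, (z + 1 - x i) := Finset.prod_congr rfl (fun i hi => by
        rw [if_pos (Finset.mem_range.mp hi)]; push_cast; ring)
      simp only [p1, Nat.add_eq_zero_iff, one_ne_zero, and_false, if_false, if_true,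
        Nat.add_sub_cancel, lt_irrefl]
      push_cast
      ring

theorem R_root (a : ℝ) (ha : 0 < a) (c : ℂ[X]) (hc : Ng c) (d : ℕ) (hd : c.natDegree ≤ d) (z : ℂ)
    (h : R a d c z = 0) : z.im = 0 ∧ z.re < 0 := by
  induction d, hd using Nat.le_induction with
  | base =>
    obtain ⟨K, x, K0, x1, _, e⟩ := R_fac a ha c hc
    rw [e] at h
    obtain ⟨i, hi, hz⟩ := Finset.prod_eq_zero_iff.mp ((mul_eq_zero.mp h).resolve_left K0)
    rw [sub_eq_zero.mp hz]
    exact ⟨Complex.ofReal_im _, (x1 i (Finset.mem_range.mp hi)).2⟩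
  | succ d hd ih =>
    rw [R_pad, coeff_eq_zero_of_natDegree_lt (by omega), zero_mul, add_zero] at h
    rcases mul_eq_zero.mp h with h | h
    · exact rf_root a ha z (d + 1) (by rw [rf_succ, h, mul_zero])
    · exact ih h

end Pool.Agent.H.MP_4c66eb_an
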