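import Mathlib
import Pool.Agent.H.MP_4c66eb_an.B

namespace Pool.Agent.H.MP_4c66eb_an
open Finset Polynomial

theorem vand (a b : ℂ) (n : ℕ) :
    ∑ k ∈ range (n + 1), (n.choose k : ℂ) * (rf a k * rf b (n - k)) = rf (a + b) n := by
  induction n with
  | zero => simp [rf]
  | succ n ih =>
    rw [Finset.sum_choose_succ_mul (fun i j => rf a i * rf b j), ← Finset.sum_add_distrib, rf_succ,
      ← ih, Finset.sum_mul]
    refine Finset.sum_congr rfl (fun i hi => ?_)
    rw [Finset.mem_range] at hi
    rw [show n + 1 - i = n - i + 1 by omega, rf_succ, rf_succ, Nat.cast_sub (by omega)]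
    ring

theorem dupl (w : ℂ) (e : ℕ) (he : e ≤ 1) (l : ℕ) :
    rf (2 * w) (2 * l + e) = 2 ^ e * 4 ^ l * (rf w (l + e) * rf (w + 1 / 2) l) := by
  induction l with
  | zero =>
    rcases Nat.le_one_iff_eq_zero_or_eq_one.mp he with rfl | rfl <;> simp [rf]
  | succ l ih =>
    rw [show 2 * (l + 1) + e = 2 * l + e + 1 + 1 by ring, show l + 1 + e = l + e + 1 by ring,
      rf_succ, rf_succ, rf_succ, rf_succ, ih]
    rcases Nat.le_one_iff_eq_zero_or_eq_one.mp he with rfl | rfl <;> push_cast <;> ring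

theorem split (n : ℕ) (g t : ℕ → ℂ) (hg : g (n + 2) = g 0) :
    ∑ k ∈ range (n + 2 + 1), g k * t k =
      g 0 * ∑ k ∈ range (n + 2 + 1), ((n + 2).choose k : ℂ) * t k +
      ∑ k ∈ range (n + 1), (g (k + 1) - g 0 * ((n + 2).choose (k + 1) : ℂ)) * t (k + 1) := by
  rw [Finset.sum_range_succ, Finset.sum_range_succ', Finset.sum_range_succ _ (n + 2),
    Finset.sum_range_succ' _ (n + 1), hg]
  simp only [sub_mul, Finset.sum_sub_distrib, mul_assoc, ← Finset.mul_sum, Nat.choose_self,
    Nat.choose_zero_right, Nat.cast_one]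
  ring

theorem gam (e : ℕ) (he : e ≤ 1) (m : ℕ) (g : ℕ → ℂ)
    (hg : ∀ k ≤ 2 * m + e, g (2 * m + e - k) = g k) :
    ∃ γ : ℕ → ℂ, (∀ x : ℂ, ∑ k ∈ range (2 * m + e + 1), g k * x ^ k =
        ∑ j ∈ range (m + 1), γ j * (x ^ j * (1 + x) ^ (2 * (m - j) + e))) ∧
      ∀ a b : ℂ, ∑ k ∈ range (2 * m + e + 1), g k * (rf a k * rf b (2 * m + e - k)) =
        ∑ j ∈ range (m + 1), γ j * (rf a j * rf b j * rf (a + b + 2 * j) (2 * (m - j) + e)) := by
  induction m generalizing g with
  | zero =>
    refine ⟨fun _ => g 0, fun x => ?_, fun a b => ?_⟩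
    · rcases Nat.le_one_iff_eq_zero_or_eq_one.mp he with rfl | rfl
      · simp
      · have := hg 0 (by norm_num)
        norm_num at this
        simp [Finset.sum_range_succ, this]; ring
    · rcases Nat.le_one_iff_eq_zero_or_eq_one.mp he with rfl | rfl
      · simp [rf]
      · have := hg 0 (by norm_num)
        norm_num at this
        simp [Finset.sum_range_succ, this, rf]; ring
  | succ m ih =>
    have en : 2 * (m + 1) + e = 2 * m + e + 2 := by ring
    rw [en] at hg ⊢
    obtain ⟨γ, h1, h2⟩ := ih (fun k => g (k + 1) - g 0 * ((2 * m + e + 2).choose (k + 1) : ℂ))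
      (fun k hk => by
        rw [show 2 * m + e - k + 1 = 2 * m + e + 2 - (k + 1) by omega, hg _ (by omega),
          Nat.choose_symm (by omega)])
    have g0 := hg 0 (by omega)
    rw [Nat.sub_zero] at g0
    refine ⟨fun j => if j = 0 then g 0 else γ (j - 1), fun x => ?_, fun a b => ?_⟩
    · rw [split _ g _ g0, Finset.sum_range_succ' _ (m + 1), add_comm]
      congr 1
      · simp only [pow_succ x, ← mul_assoc]
        rw [← Finset.sum_mul, h1, Finset.sum_mul]
        refine Finset.sum_congr rfl (fun j _ => ?_)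
        simp only [Nat.add_eq_zero_iff, one_ne_zero, and_false, if_false, Nat.add_sub_cancel,
          Nat.add_sub_add_right]
        ring
      · beta_reduce
        rw [if_pos rfl, Nat.sub_zero, en, add_comm 1 x, add_pow, pow_zero, one_mul]
        congr 1
        exact Finset.sum_congr rfl (fun k _ => by ring)
    · rw [split _ g _ g0, Finset.sum_range_succ' _ (m + 1), add_comm]
      congr 1
      · have : ∀ k ∈ range (2 * m + e + 1),
            (g (k + 1) - g 0 * ((2 * m + e + 2).choose (k + 1) : ℂ)) *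
              (rf a (k + 1) * rf b (2 * m + e + 2 - (k + 1))) =
            a * b * ((g (k + 1) - g 0 * ((2 * m + e + 2).choose (k + 1) : ℂ)) *
              (rf (a + 1) k * rf (b + 1) (2 * m + e - k))) := by
          intro k hk
          rw [Finset.mem_range] at hk
          rw [show 2 * m + e + 2 - (k + 1) = 2 * m + e - k + 1 by omega, rf_succ', rf_succ']
          ring
        rw [Finset.sum_congr rfl this, ← Finset.mul_sum, h2, Finset.mul_sum]
        refine Finset.sum_congr rfl (fun j _ => ?_)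
        simp only [Nat.add_eq_zero_iff, one_ne_zero, and_false, if_false, Nat.add_sub_cancel,
          Nat.add_sub_add_right, rf_succ']
        push_cast
        rw [show a + b + 2 * ((j : ℂ) + 1) = a + 1 + (b + 1) + 2 * j by ring]
        ring
      · beta_reduce
        rw [if_pos rfl, Nat.sub_zero, en, vand]
        simp [rf_zero]

theorem gam_ng (e m : ℕ) (g γ : ℕ → ℂ) (hg : NS (2 * m + e) g)
    (h : ∀ x : ℂ, ∑ k ∈ range (2 * m + e + 1), g k * x ^ k =
        ∑ j ∈ range (m + 1), γ j * (x ^ j * (1 + x) ^ (2 * (m - j) + e))) : Ng (pol m γ) := by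
  intro y hy
  rw [pol_eval] at hy
  have y0 : y ≠ 0 := by
    rintro rfl
    have := h 0
    rw [Finset.sum_range_succ', Finset.sum_range_succ'] at this
    rw [Finset.sum_range_succ'] at hy
    simp at this hy
    exact hg.zero (this.trans hy)
  obtain ⟨x, hx⟩ := IsAlgClosed.exists_root (C y * X ^ 2 + C (2 * y - 1) * X + C y)
    (by rw [degree_quadratic y0]; norm_num)
  simp only [IsRoot.def, eval_add, eval_mul, eval_C, eval_pow, eval_X] at hx
  have ex : x = y * (1 + x) ^ 2 := by linear_combination -hx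
  have z : ∑ k ∈ range (2 * m + e + 1), g k * x ^ k = 0 := by
    rw [h, ← mul_zero ((1 + x) ^ (2 * m + e)), ← hy, Finset.mul_sum]
    refine Finset.sum_congr rfl (fun j hj => ?_)
    rw [Finset.mem_range] at hj
    rw [show 2 * m + e = 2 * j + (2 * (m - j) + e) by omega, pow_add (1 + x) (2 * j), pow_mul]
    nth_rewrite 1 [ex]
    rw [mul_pow]
    ring
  obtain ⟨x1, x2⟩ := hg.2 x z
  have r1 := congrArg Complex.re ex
  have r2 := congrArg Complex.im ex
  simp [pow_two, x1] at r1 r2
  have n1 : 1 + x.re ≠ 0 := by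
    intro hh
    rw [hh] at r1
    linarith
  refine ⟨r2.resolve_right n1, ?_⟩
  by_contra hh
  have := mul_nonneg (not_lt.mp hh) (mul_self_nonneg (1 + x.re))
  linarith

theorem Ng.der {p : ℂ[X]} (hp : Ng p) (h : derivative p ≠ 0) : Ng (derivative p) := by
  intro z hz
  have d : 0 < p.degree := by
    by_contra hh
    apply h
    rw [eq_C_of_degree_le_zero (not_lt.mp hh), derivative_C]
  have m := rootSet_derivative_subset_convexHull_rootSet d
    (mem_rootSet.mpr ⟨h, by rw [coe_aeval_eq_eval]; exact hz⟩)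
  have cv : Convex ℝ {z : ℂ | z.im = 0 ∧ z.re < 0} :=
    (convex_hyperplane Complex.imLm.isLinear 0).inter (convex_halfSpace_re_lt 0)
  exact convexHull_min (fun w hw => hp w (by
    have := (mem_rootSet.mp hw).2
    rwa [coe_aeval_eq_eval] at this)) cv m

theorem fin (n : ℕ) (g : ℕ → ℂ) (hg : NS n g) (hs : ∀ k ≤ n, g (n - k) = g k) (P : ℂ → ℂ)
    (hP : ∀ z, P z = ∑ k ∈ range (n + 1),
      g k * (rf z k * rf z (n - k) - rf (z + 1) k * rf (z - 1) (n - k))) :
    (∀ z, P z = 0) ∨ ∀ z, P z = 0 → z.im = 0 ∧ z.re < 0 := by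
  obtain ⟨m, e, he, rfl⟩ : ∃ m e, e ≤ 1 ∧ n = 2 * m + e := ⟨n / 2, n % 2, by omega, by omega⟩
  obtain ⟨γ, h1, h2⟩ := gam e he m g hs
  have hN := gam_ng e m g γ hg h1
  have e1 : ∀ z, P z = ∑ j ∈ range (m + 1), γ j *
      ((rf z j * rf z j - rf (z + 1) j * rf (z - 1) j) * rf (2 * (z + j)) (2 * (m - j) + e)) := by
    intro z
    rw [hP]
    simp only [mul_sub, Finset.sum_sub_distrib, sub_mul]
    rw [h2, h2, show z + 1 + (z - 1) = z + z by ring]
    simp only [show ∀ j : ℕ, z + z + 2 * (j : ℂ) = 2 * (z + j) from fun j => by ring]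
  rcases m with _ | d
  · left
    intro z
    rw [e1]; simp [rf_zero]
  obtain ⟨c, hc⟩ : ∃ c, c = (derivative (pol (d + 1) γ)).comp (C (1 / 4) * X) := ⟨_, rfl⟩
  have e2 : ∀ z, P z = 2 ^ e * 4 ^ d * rf (z + 1) (d + e) * R (3 / 2) d c z := by
    intro z
    rw [e1, Finset.sum_range_succ', R, Finset.mul_sum]
    simp only [rf_zero, mul_one, sub_self, zero_mul, mul_zero, add_zero]
    refine Finset.sum_congr rfl (fun i hi => ?_)
    rw [Finset.mem_range] at hi
    rw [hc, comp_C_mul_X_coeff, coeff_derivative, pol_coeff, if_pos (by omega),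
      Nat.add_sub_add_right, dupl _ e he, show d + e = i + (d - i + e) by omega, rf_add (z + 1) i (d - i + e),
      rf_succ (z + 1) i, rf_succ' (z - 1), sub_add_cancel]
    have q : rf z (i + 1) * rf z (i + 1) = z * rf (z + 1) i * (rf z i * (z + i)) := by
      rw [← rf_succ, ← rf_succ']
    have q4 : (4 : ℂ) ^ d = 4 ^ i * 4 ^ (d - i) := by rw [← pow_add]; congr 1; omega
    have q5 : (4 : ℂ) ^ i * (1 / 4) ^ i = 1 := by rw [← mul_pow]; norm_num
    rw [q, q4]
    push_cast
    rw [show z + (i + 1) = z + 1 + i by ring, show z + 1 + i + 1 / 2 = z + 3 / 2 + i by ring]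
    linear_combination (-(γ (i + 1) * (i + 1) * 2 ^ e * 4 ^ (d - i) * rf (z + 1) i * rf z i *
      rf (z + 1 + i) (d - i + e) * rf (z + 3 / 2 + i) (d - i))) * q5
  by_cases h0 : derivative (pol (d + 1) γ) = 0
  · left
    intro z
    rw [e2, hc, h0]; simp [R]
  · right
    intro z hz
    have nc : Ng c := by
      intro w hw
      rw [hc, eval_comp] at hw
      have := hN.der h0 _ hw
      simp at this
      exact ⟨this.1, by linarith [this.2]⟩
    have dc : c.natDegree ≤ d := by
      rw [natDegree_le_iff_coeff_eq_zero]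
      intro k hk
      rw [hc, comp_C_mul_X_coeff, coeff_derivative, pol_coeff, if_neg (by omega)]
      simp
    rw [e2] at hz
    rcases mul_eq_zero.mp hz with h | h
    · exact rf_root 1 one_pos z (d + e) ((mul_eq_zero.mp h).resolve_left
        (mul_ne_zero (pow_ne_zero _ two_ne_zero) (pow_ne_zero _ (by norm_num))))
    · exact R_root (3 / 2) (by norm_num) c nc d dc z h

end Pool.Agent.H.MP_4c66eb_an
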